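import Mathlib
import Pool.Agent.H66.PS.All

set_option autoImplicit false

namespace Pool.Agent.Results.MP_c82047_co.PowerSaving

/-- For all `r ≥ 3` and `e ≥ 1`: an `r`-uniform hypergraph on `n` vertices in which every `e` edges
span more than `(r - 2) e + 2 + ⌈log₂ e⌉` vertices has at most `C n ^ (2 - 2 / 2 ^ ⌈log₂ e⌉)` edges,
where `C` depends only on `r` and `e`. -/
theorem result : ∀ r e : ℕ, 3 ≤ r → 1 ≤ e →
    ∃ C : ℝ, 0 < C ∧ ∀ n : ℕ, ∀ H : Finset (Finset (Fin n)), (∀ A ∈ H, A.card = r) →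
      (∀ S ⊆ H, S.card = e → (r - 2) * e + 2 + Nat.clog 2 e < (S.biUnion id).card) →
        (H.card : ℝ) ≤ C * (n : ℝ) ^ (2 - 2 / (2 : ℝ) ^ (Nat.clog 2 e)) := by
  intro r e hr he
  obtain ⟨q, rfl⟩ : ∃ q, r = q + 3 := ⟨r - 3, by omega⟩
  obtain ⟨C, hC, h⟩ := Pool.Agent.H66.PS.t_final' q e he
  refine ⟨C, hC, fun n H h1 h2 => h n H h1 ?_⟩
  intro S hS hSc
  have h3 := h2 S hS hSc
  have h4 : q + 3 - 2 = q + 1 := by omega
  rw [h4] at h3
  exact h3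

end Pool.Agent.Results.MP_c82047_co.PowerSaving
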