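import Pool.Agent.H700.GN.Sharp

/-!
# The `(7, 4)` problem for triple systems with a shadow of small factorization norm

The conjecture of Brown, Erdős and Sós says that triple systems on `n` vertices in which no `k`
vertices span `k - 3` triples have `o(n ^ 2)` triples; the first open case is `k = 7`. We settle this
case, with the exact order of magnitude, for the systems whose shadow (in two of the three vertex
classes) is a union of boundedly many relations of bounded factorization norm `γ₂`: the number of
the triples is at most a constant times `√(|X| |Y| |Z|)`, and this is sharp for relations of norm one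
and classes of all sizes `|I| |A|`, `|I| |B|`, `|A| |B|`.

The proof rests on a sparse form of the theorem of Balla, Hambardzumyan and Tomon: a Boolean matrix
with `e` ones in `m` rows and `n` columns and with `γ₂` norm at most `g` contains a rectangle of
ones of area at least `2 ^ (- 766 g ^ 4) e ^ 2 / (m n)` (`Pool/Agent/H700/GN/Sparse`). If two
opposite pairs of such a rectangle in the shadow have a common third vertex, then the four corners
give four triples on at most seven vertices.
-/

set_option autoImplicit false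

namespace Pool.Agent.Results.MP_c82047_co.SmallFactorizationNorm

open Pool.Agent.H700.GN Finset

theorem result :
    -- (1) tripartite triple systems without four triples on at most seven vertices
    (∀ (X Y Z : Type) [Fintype X] [Fintype Y] [Fintype Z] [DecidableEq X] [DecidableEq Y]
      [DecidableEq Z] (H : Finset (X × Y × Z)), SevenFourFree H →
      ∀ (g t : ℕ), 1 ≤ g → ∀ F : Fin t → X → Y → Prop, (∀ i, FacNormLE (F i) g) →
      (∀ x y, (∃ z, (x, y, z) ∈ H) ↔ ∃ i, F i x y) →
      (#H : ℝ) ≤ 6 * t * 2 ^ (383 * g ^ 4) *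
        √(Fintype.card X * Fintype.card Y * Fintype.card Z)) ∧
    -- (2) this is sharp
    (∀ (I A B : Type) [Fintype I] [Fintype A] [Fintype B] [DecidableEq I] [DecidableEq A]
      [DecidableEq B], ∃ H : Finset ((I × A) × (I × B) × (A × B)), SevenFourFree H ∧
      FacNormLE (fun x y => ∃ z, (x, y, z) ∈ H) 1 ∧
      (#H : ℝ) = √(Fintype.card (I × A) * Fintype.card (I × B) * Fintype.card (A × B))) ∧
    -- (3) arbitrary triple systems in which no seven vertices span four triples
    (∀ (V : Type) [Fintype V] [DecidableEq V] (H : Finset (Finset V)), (∀ e ∈ H, #e = 3) →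
      (∀ W : Finset V, #W ≤ 7 → #{e ∈ H | e ⊆ W} < 4) →
      ∀ (g t : ℕ), 1 ≤ g → ∀ F : Fin t → V → V → Prop, (∀ i, FacNormLE (F i) g) →
      (∀ i x y, F i x y → x ≠ y ∧ ∃ e ∈ H, x ∈ e ∧ y ∈ e) →
      (∀ e ∈ H, ∃ i, ∃ x ∈ e, ∃ y ∈ e, F i x y) →
      (#H : ℝ) ≤ 54 * t * 2 ^ (383 * g ^ 4) * (Fintype.card V : ℝ) ^ (3 / 2 : ℝ)) := by
  refine ⟨?_, ?_, ?_⟩
  · intro X Y Z _ _ _ _ _ _ H hH g t hg F hF hsh
    have h1 := tri_union hH g t hg F hF hsh
    have h2 : (#H : ℝ) ^ 2 ≤ (6 * t * 2 ^ (383 * g ^ 4)) ^ 2 *
        (Fintype.card X * Fintype.card Y * Fintype.card Z) := by exact_mod_cast h1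
    refine le_of_sq_le_sq ?_ (by positivity)
    rw [mul_pow, Real.sq_sqrt (by positivity)]
    exact h2
  · intro I A B _ _ _ _ _ _
    refine ⟨boxes I A B, boxes_free I A B, ?_, ?_⟩
    · have e : (fun (x : I × A) (y : I × B) => ∃ z, (x, y, z) ∈ boxes I A B) =
          fun x y => x.1 = y.1 := by
        funext x y
        apply propext
        constructor
        · rintro ⟨z, hz⟩
          obtain ⟨p, _, hp⟩ := mem_image.mp hz
          simp only [Prod.mk.injEq] at hp
          rw [← hp.1, ← hp.2.1]
        · intro h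
          exact ⟨(x.2, y.2), mem_image.mpr ⟨(x.1, x.2, y.2), mem_univ _, by
            simp only [Prod.mk.injEq, true_and, and_true]
            rw [h]⟩⟩
      rw [e]
      exact facNorm_eq (fun x : I × A => x.1) (fun y : I × B => y.1)
    · rw [card_boxes]
      simp only [Fintype.card_prod]
      push_cast
      rw [eq_comm, Real.sqrt_eq_iff_mul_self_eq (by positivity) (by positivity)]
      ring
  · intro V _ _ H hu hW g t hg F hF hsh hcov
    have hH : FourFree 3 H := by
      refine ⟨hu, fun S hS h4 => ?_⟩
      by_contra hcon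
      have h1 := hW (S.biUnion id) (by omega)
      have h2 : S ⊆ {e ∈ H | e ⊆ S.biUnion id} := fun e he =>
        mem_filter.mpr ⟨hS he, fun w hw => mem_biUnion.mpr ⟨e, he, hw⟩⟩
      have h3 := card_le_card h2
      omega
    have h1 := shadow_union le_rfl hH g t hg F hF hsh hcov
    have h2 : (#H : ℝ) ^ 2 ≤ (54 * t * 2 ^ (383 * g ^ 4)) ^ 2 * (Fintype.card V : ℝ) ^ 3 := by
      have h3 : #H ^ 2 ≤ (54 * t * 2 ^ (383 * g ^ 4)) ^ 2 * Fintype.card V ^ 3 := by
        refine h1.trans (le_of_eq ?_)
        norm_num
      exact_mod_cast h3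
    have hV : (0 : ℝ) ≤ Fintype.card V := Nat.cast_nonneg _
    refine le_of_sq_le_sq ?_ (by positivity)
    rw [mul_pow, ← Real.rpow_natCast ((Fintype.card V : ℝ) ^ (3 / 2 : ℝ)) 2, ← Real.rpow_mul hV]
    have e1 : (3 / 2 : ℝ) * ((2 : ℕ) : ℝ) = ((3 : ℕ) : ℝ) := by norm_num
    rw [e1, Real.rpow_natCast]
    exact h2

end Pool.Agent.Results.MP_c82047_co.SmallFactorizationNorm
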